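import Pool.Agent.Q100.CB.Move

/-!
# A channel dug densely
-/

set_option autoImplicit false

open Set Metric Filter Topology

namespace Pool.Agent.Q100.CB

variable {E : Type*} [NormedAddCommGroup E] [NormedSpace ℝ E]

/-- The closed half space outside the open ball of radius `c`. -/
def A (ℓ : E →L[ℝ] ℝ) (c : ℝ) : Set E := {x | 0 ≤ ℓ x ∧ c ≤ ‖x‖}

theorem A_closed (ℓ : E →L[ℝ] ℝ) (c : ℝ) : IsClosed (A ℓ c) :=
  (isClosed_le continuous_const ℓ.continuous).inter (isClosed_le continuous_const continuous_norm)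

theorem A_compl_preconnected (ℓ : E →L[ℝ] ℝ) {e : E} (he : ℓ e = 1) {c : ℝ} (hc : 0 < c) :
    IsPreconnected (A ℓ c)ᶜ := by
  have h1 : (A ℓ c)ᶜ = {x | ℓ x < 0} ∪ ball 0 c := by
    ext x
    simp only [A, mem_compl_iff, mem_setOf_eq, not_and_or, not_le, mem_union, mem_ball,
      dist_zero_right]
  rw [h1]
  have h2 : Convex ℝ {x | ℓ x < 0} := convex_halfSpace_lt ℓ.toLinearMap.isLinear 0
  have hpos : 0 < c / (2 * (‖e‖ + 1)) := by positivity
  refine IsPreconnected.union (-(c / (2 * (‖e‖ + 1))) • e) ?_ ?_ h2.isPreconnected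
    (convex_ball 0 c).isPreconnected
  · show ℓ (-(c / (2 * (‖e‖ + 1))) • e) < 0
    rw [map_smul, he]; simpa using hpos
  · rw [mem_ball, dist_zero_right, norm_smul, norm_neg, Real.norm_of_nonneg hpos.le]
    rw [div_mul_eq_mul_div, div_lt_iff₀ (by positivity)]
    nlinarith [norm_nonneg e]

/-- One step. -/
theorem step [CompleteSpace E] (ℓ : E →L[ℝ] ℝ) {e : E} (he : ℓ e = 1) (G : E ≃ₜ E) {c : ℝ}
    (hc : 0 < c) {B : Set E} (hB : IsOpen B) :
    ∃ (G' : E ≃ₜ E) (c' : ℝ), 0 < c' ∧ c' ≤ c / 2 ∧ (∀ x ∈ A ℓ c, G' x = G x) ∧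
      ((∃ q ∈ B, G.symm q ∉ A ℓ c) → ∀ x, ‖x‖ ≤ c' → G' x ∈ B) := by
  by_cases h : ∃ q ∈ B, G.symm q ∉ A ℓ c
  · obtain ⟨q, hq, hqA⟩ := h
    have h0 : (0 : E) ∈ (A ℓ c)ᶜ := by
      simp only [A, mem_compl_iff, mem_setOf_eq, norm_zero, not_and, not_le]
      exact fun _ => hc
    obtain ⟨μ, h1, h2⟩ := move (A_closed ℓ c).isOpen_compl (A_compl_preconnected ℓ he hc) h0 hqA
    have h3 : (μ.trans G) 0 ∈ B := by
      show G (μ 0) ∈ B
      rw [h1, Homeomorph.apply_symm_apply]; exact hq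
    obtain ⟨r, hr, hr'⟩ := Metric.isOpen_iff.1 (hB.preimage (μ.trans G).continuous) 0 h3
    refine ⟨μ.trans G, min (c / 2) (r / 2), by positivity, min_le_left _ _, fun x hx => ?_,
      fun _ x hx => hr' ?_⟩
    · show G (μ x) = G x
      rw [h2 x (by simpa using hx)]
    · rw [mem_ball, dist_zero_right]
      have := hx.trans (min_le_right _ _)
      linarith
  · exact ⟨G, c / 2, by positivity, le_rfl, fun x _ => rfl, fun h' => absurd h' h⟩

/-- The data of the construction. -/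
structure Dig (ℓ : E →L[ℝ] ℝ) where
  G : ℕ → E ≃ₜ E
  c : ℕ → ℝ
  G_zero : ∀ x, G 0 x = x
  c_zero : c 0 = 1
  c_pos : ∀ k, 0 < c k
  c_half : ∀ k, c (k + 1) ≤ c k / 2
  G_succ : ∀ k, ∀ x ∈ A ℓ (c k), G (k + 1) x = G k x
  gate : ∀ W : Set E, IsOpen W → ∀ q ∈ W, ∀ K : ℕ, ∃ k ≥ K,
    (∀ V : Set E, IsOpen V → q ∈ V → ∃ q' ∈ V, (G k).symm q' ∉ A ℓ (c k)) →
      ∀ x, ‖x‖ ≤ c (k + 1) → G (k + 1) x ∈ W

theorem exists_dig [CompleteSpace E] [SecondCountableTopology E] (ℓ : E →L[ℝ] ℝ) {e : E}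
    (he : ℓ e = 1) : Nonempty (Dig ℓ) := by
  obtain ⟨b, hb⟩ : ∃ b : ℕ → Set E, (∀ i, IsOpen (b i)) ∧
      ∀ W : Set E, IsOpen W → ∀ q ∈ W, ∃ i, q ∈ b i ∧ b i ⊆ W := by
    have hB := TopologicalSpace.isBasis_countableBasis E
    have hcount := TopologicalSpace.countable_countableBasis E
    have hne : (TopologicalSpace.countableBasis E).Nonempty := by
      obtain ⟨s, hs, -⟩ := hB.exists_subset_of_mem_open (mem_univ (0 : E)) isOpen_univ
      exact ⟨s, hs⟩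
    obtain ⟨b, hb⟩ := hcount.exists_eq_range hne
    refine ⟨b, fun i => ?_, fun W hW q hq => ?_⟩
    · exact hB.isOpen (hb ▸ mem_range_self i)
    · obtain ⟨s, hs, hqs, hsW⟩ := hB.exists_subset_of_mem_open hq hW
      rw [hb] at hs
      obtain ⟨i, rfl⟩ := hs
      exact ⟨i, hqs, hsW⟩
  choose! nG nc h1 h2 h3 h4 using fun (p : (E ≃ₜ E) × ℝ) (i : ℕ) (hp : 0 < p.2) =>
    step ℓ he p.1 hp (hb.1 i)
  let S : ℕ → (E ≃ₜ E) × ℝ := fun k => Nat.rec (Homeomorph.refl E, 1)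
    (fun k p => (nG p k.unpair.1, nc p k.unpair.1)) k
  have hpos : ∀ k, 0 < (S k).2 := by
    intro k
    induction k with
    | zero => exact one_pos
    | succ k ih => exact h1 (S k) k.unpair.1 ih
  refine ⟨⟨fun k => (S k).1, fun k => (S k).2, fun x => rfl, rfl, hpos,
    fun k => h2 (S k) k.unpair.1 (hpos k), fun k x hx => h3 (S k) k.unpair.1 (hpos k) x hx, ?_⟩⟩
  intro W hW q hq K
  obtain ⟨i, hqi, hiW⟩ := hb.2 W hW q hq
  refine ⟨Nat.pair i K, Nat.right_le_pair i K, fun hV x hx => hiW ?_⟩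
  have hu : (Nat.unpair (Nat.pair i K)).1 = i := by rw [Nat.unpair_pair]
  obtain ⟨q', hq', hqA⟩ := hV (b i) (hb.1 i) hqi
  have := h4 (S (Nat.pair i K)) (Nat.unpair (Nat.pair i K)).1 (hpos _)
  rw [hu] at this
  have h5 : (S (Nat.pair i K + 1)).2 = nc (S (Nat.pair i K)) (Nat.unpair (Nat.pair i K)).1 := rfl
  have h6 : (S (Nat.pair i K + 1)).1 = nG (S (Nat.pair i K)) (Nat.unpair (Nat.pair i K)).1 := rfl
  rw [hu] at h5 h6
  show (S (Nat.pair i K + 1)).1 x ∈ b i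
  rw [h6]
  refine this ⟨q', hq', hqA⟩ x ?_
  rw [← h5]; exact hx

end Pool.Agent.Q100.CB
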