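import Pool.Agent.Q100.CB.Main

/-!
# The connected bijection: conclusion
-/

set_option autoImplicit false

open Set Metric Filter Topology

namespace Pool.Agent.Q100.CB

variable {E : Type*} [NormedAddCommGroup E] [NormedSpace ℝ E] {ℓ : E →L[ℝ] ℝ}

/-- Maps the level `ℓ = c` of the open half space onto the part of norm `c`. -/
noncomputable def H (ℓ : E →L[ℝ] ℝ) (x : E) : E := (ℓ x / ‖x‖) • x

/-- The inverse of `H`. -/
noncomputable def H' (ℓ : E →L[ℝ] ℝ) (y : E) : E := (‖y‖ / ℓ y) • y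

open Dig

theorem H_mem {x : E} (hx : x ∈ U ℓ) : H ℓ x ∈ U ℓ := by
  have h1 := norm_pos_of_mem_U hx
  have h2 : 0 < ℓ x := hx
  show 0 < ℓ ((ℓ x / ‖x‖) • x)
  rw [map_smul, smul_eq_mul]; positivity

theorem H'_mem {x : E} (hx : x ∈ U ℓ) : H' ℓ x ∈ U ℓ := by
  have h1 := norm_pos_of_mem_U hx
  have h2 : 0 < ℓ x := hx
  show 0 < ℓ ((‖x‖ / ℓ x) • x)
  rw [map_smul, smul_eq_mul]; positivity

theorem norm_H {x : E} (hx : x ∈ U ℓ) : ‖H ℓ x‖ = ℓ x := by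
  have h1 := norm_pos_of_mem_U hx
  have h2 : 0 < ℓ x := hx
  rw [H, norm_smul, Real.norm_of_nonneg (by positivity)]
  field_simp

theorem H_H' {x : E} (hx : x ∈ U ℓ) : H ℓ (H' ℓ x) = x := by
  have h1 := norm_pos_of_mem_U hx
  have h2 : 0 < ℓ x := hx
  unfold H H'
  rw [map_smul, smul_eq_mul, norm_smul, Real.norm_of_nonneg (by positivity), smul_smul]
  have : ‖x‖ / ℓ x * ℓ x / (‖x‖ / ℓ x * ‖x‖) * (‖x‖ / ℓ x) = 1 := by field_simp
  rw [this, one_smul]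

theorem H'_H {x : E} (hx : x ∈ U ℓ) : H' ℓ (H ℓ x) = x := by
  have h1 := norm_pos_of_mem_U hx
  have h2 : 0 < ℓ x := hx
  unfold H H'
  rw [map_smul, smul_eq_mul, norm_smul, Real.norm_of_nonneg (by positivity), smul_smul]
  have : ℓ x / ‖x‖ * ‖x‖ / (ℓ x / ‖x‖ * ℓ x) * (ℓ x / ‖x‖) = 1 := by field_simp
  rw [this, one_smul]

theorem H_continuousAt {x : E} (hx : x ∈ U ℓ) : ContinuousAt (H ℓ) x := by
  have h1 := (norm_pos_of_mem_U hx).ne'
  unfold H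
  exact ((ℓ.continuous.continuousAt).div continuousAt_id.norm h1).smul continuousAt_id

namespace Dig

variable (D : Dig ℓ)

/-- The inverse of `Γ` on the channel. -/
noncomputable def inv (z : E) : E := Function.invFunOn D.Γ (U ℓ) z

theorem inv_mem {z : E} (hz : z ∈ D.Ω) : D.inv z ∈ U ℓ := Function.invFunOn_mem hz

theorem Γ_inv {z : E} (hz : z ∈ D.Ω) : D.Γ (D.inv z) = z := Function.invFunOn_eq hz

theorem inv_Γ {x : E} (hx : x ∈ U ℓ) : D.inv (D.Γ x) = x :=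
  D.inj (D.inv_mem ⟨x, hx, rfl⟩) hx (D.Γ_inv ⟨x, hx, rfl⟩)

open Classical in
/-- The bijection: the identity on the land, `Γ ∘ H ∘ Γ⁻¹` on the channel. -/
noncomputable def f : E ≃ E where
  toFun z := if z ∈ D.Ω then D.Γ (H ℓ (D.inv z)) else z
  invFun z := if z ∈ D.Ω then D.Γ (H' ℓ (D.inv z)) else z
  left_inv z := by
    by_cases hz : z ∈ D.Ω
    · have h1 : D.Γ (H ℓ (D.inv z)) ∈ D.Ω := ⟨_, H_mem (D.inv_mem hz), rfl⟩
      simp only [hz, h1, if_true]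
      rw [D.inv_Γ (H_mem (D.inv_mem hz)), H'_H (D.inv_mem hz), D.Γ_inv hz]
    · simp only [hz, if_false]
  right_inv z := by
    by_cases hz : z ∈ D.Ω
    · have h1 : D.Γ (H' ℓ (D.inv z)) ∈ D.Ω := ⟨_, H'_mem (D.inv_mem hz), rfl⟩
      simp only [hz, h1, if_true]
      rw [D.inv_Γ (H'_mem (D.inv_mem hz)), H_H' (D.inv_mem hz), D.Γ_inv hz]
    · simp only [hz, if_false]

theorem f_Γ {x : E} (hx : x ∈ U ℓ) : D.f (D.Γ x) = D.Γ (H ℓ x) := by
  classical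
  have h1 : D.Γ x ∈ D.Ω := ⟨x, hx, rfl⟩
  have h2 : D.f (D.Γ x) = if D.Γ x ∈ D.Ω then D.Γ (H ℓ (D.inv (D.Γ x))) else D.Γ x := by
    simp only [f, Equiv.coe_fn_mk]
  rw [h2, if_pos h1, D.inv_Γ hx]

theorem f_land {z : E} (hz : z ∉ D.Ω) : D.f z = z := by
  simp only [f, Equiv.coe_fn_mk, hz, if_false]

/-- The part of the channel which `f` maps into `V`. -/
theorem open_part {V O : Set E} (hV : IsOpen V) (hO : IsOpen O) :
    IsOpen (D.Γ '' {x | x ∈ U ℓ ∧ x ∈ O ∧ D.Γ (H ℓ x) ∈ V}) := by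
  apply D.open_image
  · rw [isOpen_iff_mem_nhds]
    rintro x ⟨hx, hxO, hxV⟩
    have h1 : ContinuousAt (fun x => D.Γ (H ℓ x)) x :=
      ContinuousAt.comp (f := H ℓ) (g := D.Γ) (D.continuousAt (H_mem hx)) (H_continuousAt hx)
    filter_upwards [U_open.mem_nhds hx, hO.mem_nhds hxO, h1 (hV.mem_nhds hxV)] with y h2 h3 h4
    exact ⟨h2, h3, h4⟩
  · exact fun x hx => hx.1

/-- A connected set which meets the land at a point of `f ⁻¹ V₁` has no point of the channel in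
`f ⁻¹ V₂`. -/
theorem no_split [ProperSpace E] {e : E} (he : ℓ e = 1) {C V₁ V₂ : Set E} (hC : IsPreconnected C)
    (h₁ : IsOpen V₁) (h₂ : IsOpen V₂) (hcov : ∀ z ∈ C, D.f z ∈ V₁ ∨ D.f z ∈ V₂)
    (hdis : ∀ z ∈ C, ¬ (D.f z ∈ V₁ ∧ D.f z ∈ V₂)) {p b : E} (hp : p ∈ C) (hpΩ : p ∉ D.Ω)
    (hpV : D.f p ∈ V₁) (hb : b ∈ C) (hbΩ : b ∈ D.Ω) (hbV : D.f b ∈ V₂) : False := by
  obtain ⟨x, hx, rfl⟩ := hbΩ
  rw [D.f_land hpΩ] at hpV
  obtain ⟨c, hc, hcx, hgate⟩ := D.gates he hpΩ h₁ hpV (show 0 < ℓ x from hx)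
  have hlev : IsOpen {x : E | c < ℓ x} := isOpen_lt continuous_const ℓ.continuous
  have hO1 := D.open_part h₂ hlev
  have hO2 : IsOpen ((D.Γ '' {x | c ≤ ℓ x})ᶜ ∪
      D.Γ '' {x | x ∈ U ℓ ∧ x ∈ univ ∧ D.Γ (H ℓ x) ∈ V₁}) :=
    (D.wall_closed hc).isOpen_compl.union (D.open_part h₁ isOpen_univ)
  obtain ⟨z, hzC, hz1, hz2⟩ := hC _ _ hO1 hO2 (fun z hz => by
    by_cases hzc : z ∈ D.Γ '' {x | c ≤ ℓ x}
    · obtain ⟨y, hy, rfl⟩ := hzc
      have hy' : c ≤ ℓ y := hy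
      have hyU : y ∈ U ℓ := lt_of_lt_of_le hc hy'
      rcases eq_or_lt_of_le hy' with h | h
      · right; right
        exact ⟨y, ⟨hyU, mem_univ _, hgate _ (H_mem hyU) (by rw [norm_H hyU, h])⟩, rfl⟩
      · rcases hcov _ hz with h' | h'
        · right; right
          rw [D.f_Γ hyU] at h'
          exact ⟨y, ⟨hyU, mem_univ _, h'⟩, rfl⟩
        · left
          rw [D.f_Γ hyU] at h'
          exact ⟨y, ⟨hyU, h, h'⟩, rfl⟩
    · right; left; exact hzc)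
    ⟨D.Γ x, hb, x, ⟨hx, hcx, by rw [← D.f_Γ hx]; exact hbV⟩, rfl⟩
    ⟨p, hp, Or.inl (fun ⟨y, hy, hyp⟩ => hpΩ ⟨y, lt_of_lt_of_le hc hy, hyp⟩)⟩
  obtain ⟨y, ⟨hyU, hyc, hyV⟩, rfl⟩ := hz1
  rcases hz2 with h | ⟨y', ⟨hyU', -, hyV'⟩, h⟩
  · exact h ⟨y, (le_of_lt hyc : c ≤ ℓ y), rfl⟩
  · have : y' = y := D.inj hyU' hyU h
    subst this
    exact hdis _ hzC (by rw [D.f_Γ hyU]; exact ⟨hyV', hyV⟩)

theorem f_connected [ProperSpace E] {e : E} (he : ℓ e = 1) {C : Set E} (hC : IsPreconnected C) :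
    IsPreconnected (D.f '' C) := by
  rintro V₁ V₂ h₁ h₂ hsub ⟨_, ⟨a, ha, rfl⟩, haV⟩ ⟨_, ⟨b, hb, rfl⟩, hbV⟩
  by_contra hne
  have hcov : ∀ z ∈ C, D.f z ∈ V₁ ∨ D.f z ∈ V₂ := fun z hz => hsub ⟨z, hz, rfl⟩
  have hdis : ∀ z ∈ C, ¬ (D.f z ∈ V₁ ∧ D.f z ∈ V₂) := fun z hz h =>
    hne ⟨D.f z, ⟨z, hz, rfl⟩, h⟩
  have hcov' : ∀ z ∈ C, D.f z ∈ V₂ ∨ D.f z ∈ V₁ := fun z hz => (hcov z hz).symm
  have hdis' : ∀ z ∈ C, ¬ (D.f z ∈ V₂ ∧ D.f z ∈ V₁) := fun z hz h => hdis z hz h.symm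
  have key1 := fun {p b : E} => D.no_split he (p := p) (b := b) hC h₁ h₂ hcov hdis
  have key2 := fun {p b : E} => D.no_split he (p := p) (b := b) hC h₂ h₁ hcov' hdis'
  by_cases hland : ∃ p ∈ C, p ∉ D.Ω
  · -- then all of `C` is land
    have hall : ∀ z ∈ C, z ∉ D.Ω := by
      obtain ⟨p, hp, hpΩ⟩ := hland
      rcases hcov p hp with hpV | hpV
      · have hbΩ : b ∉ D.Ω := fun h => key1 hp hpΩ hpV hb h hbV
        intro z hz hzΩ
        rcases hcov z hz with hzV | hzV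
        · exact key2 hb hbΩ hbV hz hzΩ hzV
        · exact key1 hp hpΩ hpV hz hzΩ hzV
      · have haΩ : a ∉ D.Ω := fun h => key2 hp hpΩ hpV ha h haV
        intro z hz hzΩ
        rcases hcov z hz with hzV | hzV
        · exact key2 hp hpΩ hpV hz hzΩ hzV
        · exact key1 ha haΩ haV hz hzΩ hzV
    rw [D.f_land (hall a ha)] at haV
    rw [D.f_land (hall b hb)] at hbV
    obtain ⟨z, hz, hz1, hz2⟩ := hC V₁ V₂ h₁ h₂ (fun z hz => by
      have := hcov z hz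
      rwa [D.f_land (hall z hz)] at this) ⟨a, ha, haV⟩ ⟨b, hb, hbV⟩
    exact hdis z hz (by rw [D.f_land (hall z hz)]; exact ⟨hz1, hz2⟩)
  · push Not at hland
    have hmem : ∀ {V : Set E} {z : E}, z ∈ C → D.f z ∈ V →
        z ∈ D.Γ '' {x | x ∈ U ℓ ∧ x ∈ univ ∧ D.Γ (H ℓ x) ∈ V} := by
      intro V z hz hzV
      obtain ⟨x, hx, rfl⟩ := hland z hz
      rw [D.f_Γ hx] at hzV
      exact ⟨x, ⟨hx, mem_univ _, hzV⟩, rfl⟩
    obtain ⟨z, hz, ⟨x, ⟨hx, -, hx1⟩, rfl⟩, ⟨x', ⟨hx', -, hx2⟩, h⟩⟩ := hC _ _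
      (D.open_part h₁ isOpen_univ) (D.open_part h₂ isOpen_univ)
      (fun z hz => (hcov z hz).imp (hmem hz) (hmem hz)) ⟨a, ha, hmem ha haV⟩ ⟨b, hb, hmem hb hbV⟩
    have : x' = x := D.inj hx' hx h
    subst this
    exact hdis _ hz (by rw [D.f_Γ hx]; exact ⟨hx1, hx2⟩)

/-- A connected set whose preimage is not connected. -/
theorem f_symm_not_connected [ProperSpace E] (hℓ : ∀ x, |ℓ x| ≤ ‖x‖) {e u : E} (he : ℓ e = 1)
    (hu : ℓ u = 0) (hun : ‖u‖ = 2) :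
    ∃ C : Set E, IsConnected C ∧ ¬ IsPreconnected (D.f.symm '' C) := by
  let P : Set E := {x | ℓ x = 2}
  have hPU : ∀ x ∈ P, x ∈ U ℓ := fun x hx => by
    have : ℓ x = 2 := hx
    show 0 < ℓ x
    rw [this]; norm_num
  have hPn : ∀ x ∈ P, 1 ≤ ‖x‖ := fun x hx => by
    have h1 : ℓ x = 2 := hx
    have h2 := hℓ x
    rw [h1, abs_of_pos (by norm_num : (0 : ℝ) < 2)] at h2
    linarith
  have hfP : ∀ x ∈ P, D.f x = H ℓ x := by
    intro x hx
    have h1 : D.Γ x = x := D.Γ_far (le_of_lt (hPU x hx)) (hPn x hx)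
    have h2 : D.f (D.Γ x) = D.Γ (H ℓ x) := D.f_Γ (hPU x hx)
    rw [h1] at h2
    rw [h2]
    have h3 : ℓ x = 2 := hx
    exact D.Γ_far (le_of_lt (H_mem (hPU x hx))) (by rw [norm_H (hPU x hx), h3]; norm_num)
  have huΩ : u ∉ D.Ω := D.not_mem_Ω hu (by rw [hun]; norm_num)
  have hPconv : Convex ℝ P := (convex_singleton (2 : ℝ)).linear_preimage ℓ.toLinearMap
  have h2eP : (2 : ℝ) • e ∈ P := by
    show ℓ ((2 : ℝ) • e) = 2
    rw [map_smul, he]; norm_num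
  have hconn : IsPreconnected (D.f '' P) := D.f_connected he hPconv.isPreconnected
  have hclos : u ∈ closure (D.f '' P) := by
    have h1 : Tendsto (fun t : ℝ => (2 / ‖(2 * t) • e + u‖) • ((2 * t) • e + u)) (𝓝[>] 0)
        (𝓝 u) := by
      have h2 : ContinuousAt (fun t : ℝ => (2 / ‖(2 * t) • e + u‖) • ((2 * t) • e + u)) 0 := by
        apply ContinuousAt.smul
        · apply ContinuousAt.div continuousAt_const (by fun_prop)
          simp [hun]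
        · fun_prop
      have h3 := h2.tendsto
      simp only [mul_zero, zero_smul, zero_add, hun] at h3
      rw [show (2 : ℝ) / 2 = 1 by norm_num, one_smul] at h3
      exact h3.mono_left nhdsWithin_le_nhds
    refine mem_closure_of_tendsto h1 ?_
    filter_upwards [self_mem_nhdsWithin] with t ht
    have ht0 : (0 : ℝ) < t := ht
    have hxP : t⁻¹ • ((2 * t) • e + u) ∈ P := by
      show ℓ (t⁻¹ • ((2 * t) • e + u)) = 2
      rw [map_smul, map_add, map_smul, he, hu, smul_eq_mul, smul_eq_mul]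
      field_simp
      ring
    refine ⟨_, hxP, ?_⟩
    rw [hfP _ hxP]
    have h3 : ℓ (t⁻¹ • ((2 * t) • e + u)) = 2 := hxP
    unfold H
    rw [h3, norm_smul, norm_inv, Real.norm_of_nonneg ht0.le, smul_smul]
    congr 1
    field_simp
  refine ⟨D.f '' P ∪ {u}, ⟨⟨u, Or.inr rfl⟩, ?_⟩, ?_⟩
  · exact hconn.subset_closure subset_union_left (union_subset subset_closure
      (singleton_subset_iff.2 hclos))
  · have h1 : D.f.symm '' (D.f '' P ∪ {u}) = P ∪ {u} := by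
      rw [image_union, Equiv.symm_image_image, image_singleton]
      congr 2
      rw [Equiv.symm_apply_eq, D.f_land huΩ]
    rw [h1]
    intro hpre
    obtain ⟨z, hz, hz1, hz2⟩ := hpre {x | ℓ x < 1} {x | 1 < ℓ x}
      (isOpen_lt ℓ.continuous continuous_const) (isOpen_lt continuous_const ℓ.continuous)
      (by
        rintro z (hz | hz)
        · right
          have : ℓ z = 2 := hz
          show 1 < ℓ z
          rw [this]; norm_num
        · left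
          have : z = u := hz
          show ℓ z < 1
          rw [this, hu]; norm_num)
      ⟨u, Or.inr rfl, by show ℓ u < 1; rw [hu]; norm_num⟩
      ⟨(2 : ℝ) • e, Or.inl h2eP, by
        show 1 < ℓ ((2 : ℝ) • e)
        rw [map_smul, he]; norm_num⟩
    have h3 : ℓ z < 1 := hz1
    have h4 : 1 < ℓ z := hz2
    linarith

end Dig

end Pool.Agent.Q100.CB
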