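import Pool.Agent.Q100.CB.Dig

/-!
# The connected bijection
-/

set_option autoImplicit false

open Set Metric Filter Topology

namespace Pool.Agent.Q100.CB

variable {E : Type*} [NormedAddCommGroup E] [NormedSpace ℝ E] {ℓ : E →L[ℝ] ℝ}

namespace Dig

variable (D : Dig ℓ)

theorem c_le (k : ℕ) : D.c k ≤ (1 / 2) ^ k := by
  induction k with
  | zero => simp [D.c_zero]
  | succ k ih =>
    have := D.c_half k
    rw [pow_succ]; linarith

theorem c_anti {j k : ℕ} (h : j ≤ k) : D.c k ≤ D.c j := by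
  induction h with
  | refl => exact le_rfl
  | step _ ih =>
    rename_i m _
    have := D.c_half m
    have := D.c_pos m
    show D.c (m + 1) ≤ D.c j
    linarith

theorem exists_c_lt {r : ℝ} (hr : 0 < r) : ∃ K, ∀ k, K ≤ k → D.c k < r := by
  obtain ⟨K, hK⟩ := exists_pow_lt_of_lt_one hr (by norm_num : (1 / 2 : ℝ) < 1)
  exact ⟨K, fun k hk => (D.c_anti hk).trans_lt ((D.c_le K).trans_lt hK)⟩

theorem G_stable {j k : ℕ} (h : j ≤ k) {x : E} (hx : x ∈ A ℓ (D.c j)) : D.G k x = D.G j x := by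
  induction h with
  | refl => rfl
  | step hjm ih =>
    rename_i m
    show D.G (m + 1) x = D.G j x
    rw [D.G_succ m x ⟨hx.1, (D.c_anti hjm).trans hx.2⟩, ih]

open Classical in
/-- The open embedding of the half space. -/
noncomputable def Γ (x : E) : E := if h : ∃ k, D.c k ≤ ‖x‖ then D.G (Nat.find h) x else x

theorem Γ_eq {k : ℕ} {x : E} (hx : x ∈ A ℓ (D.c k)) : D.Γ x = D.G k x := by
  classical
  have h : ∃ k, D.c k ≤ ‖x‖ := ⟨k, hx.2⟩
  have h1 : D.Γ x = D.G (Nat.find h) x := by unfold Γ; rw [dif_pos h]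
  rw [h1]
  exact (D.G_stable (Nat.find_min' h hx.2) ⟨hx.1, Nat.find_spec h⟩).symm

/-- The open half space. -/
def U (ℓ : E →L[ℝ] ℝ) : Set E := {x | 0 < ℓ x}

theorem U_open : IsOpen (U ℓ) := isOpen_lt continuous_const ℓ.continuous

theorem norm_pos_of_mem_U {x : E} (hx : x ∈ U ℓ) : 0 < ‖x‖ := by
  rw [norm_pos_iff]
  rintro rfl
  simp [U] at hx

theorem exists_stage {x : E} (hx : x ∈ U ℓ) : ∃ K, ∀ k, K ≤ k → D.c k < ‖x‖ :=
  D.exists_c_lt (norm_pos_of_mem_U hx)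

theorem inj : InjOn D.Γ (U ℓ) := by
  intro x hx y hy h
  obtain ⟨K, hK⟩ := D.exists_stage hx
  obtain ⟨K', hK'⟩ := D.exists_stage hy
  rw [D.Γ_eq (k := max K K') ⟨le_of_lt hx, (hK _ (le_max_left _ _)).le⟩,
    D.Γ_eq (k := max K K') ⟨le_of_lt hy, (hK' _ (le_max_right _ _)).le⟩] at h
  exact (D.G _).injective h

theorem continuousAt {x : E} (hx : x ∈ U ℓ) : ContinuousAt D.Γ x := by
  obtain ⟨K, hK⟩ := D.exists_stage hx
  have h1 : ∀ᶠ y in 𝓝 x, D.Γ y = D.G K y := by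
    filter_upwards [U_open.mem_nhds hx,
      (isOpen_lt continuous_const continuous_norm).mem_nhds (hK K le_rfl)] with y hy hy'
    exact D.Γ_eq ⟨le_of_lt hy, le_of_lt hy'⟩
  exact ((D.G K).continuous.continuousAt).congr (h1.mono fun y hy => hy.symm)

theorem open_image {W : Set E} (hW : IsOpen W) (hWU : W ⊆ U ℓ) : IsOpen (D.Γ '' W) := by
  rw [isOpen_iff_mem_nhds]
  rintro _ ⟨x, hx, rfl⟩
  obtain ⟨K, hK⟩ := D.exists_stage (hWU hx)
  have hO : IsOpen (W ∩ {y | D.c K < ‖y‖}) :=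
    hW.inter (isOpen_lt continuous_const continuous_norm)
  have h1 : IsOpen (D.G K '' (W ∩ {y | D.c K < ‖y‖})) := (D.G K).isOpenMap _ hO
  refine mem_of_superset (h1.mem_nhds ⟨x, ⟨hx, hK K le_rfl⟩, ?_⟩) ?_
  · exact (D.Γ_eq ⟨le_of_lt (hWU hx), (hK K le_rfl).le⟩).symm
  · rintro _ ⟨y, ⟨hy, hy'⟩, rfl⟩
    exact ⟨y, hy, D.Γ_eq ⟨le_of_lt (hWU hy), le_of_lt hy'⟩⟩

theorem Γ_far {x : E} (hx : 0 ≤ ℓ x) (h : 1 ≤ ‖x‖) : D.Γ x = x := by
  rw [D.Γ_eq (k := 0) ⟨hx, by rw [D.c_zero]; exact h⟩, D.G_zero]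

/-- The channel. -/
def Ω : Set E := D.Γ '' U ℓ

theorem Ω_open : IsOpen D.Ω := D.open_image U_open Subset.rfl

theorem not_mem_Ω {y : E} (hy : ℓ y = 0) (h : 1 ≤ ‖y‖) : y ∉ D.Ω := by
  rintro ⟨x, hx, hxy⟩
  obtain ⟨K, hK⟩ := D.exists_stage hx
  rw [D.Γ_eq (k := K) ⟨le_of_lt hx, (hK K le_rfl).le⟩] at hxy
  have h1 : D.G K y = y := by
    rw [D.G_stable (Nat.zero_le K) ⟨hy.ge, by rw [D.c_zero]; exact h⟩, D.G_zero]
  have h2 : x = y := (D.G K).injective (hxy.trans h1.symm)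
  have h3 : 0 < ℓ x := hx
  rw [h2, hy] at h3
  exact lt_irrefl _ h3

/-- The walls: the levels of `ℓ` are closed in the whole space. -/
theorem wall_closed [ProperSpace E] {c : ℝ} (hc : 0 < c) : IsClosed (D.Γ '' {x | c ≤ ℓ x}) := by
  have h1 : {x : E | c ≤ ℓ x} = ({x | c ≤ ℓ x} ∩ closedBall 0 1) ∪ ({x | c ≤ ℓ x} ∩ {x | 1 ≤ ‖x‖}) := by
    ext x
    simp only [mem_setOf_eq, mem_union, mem_inter_iff, mem_closedBall, dist_zero_right]
    constructor
    · intro h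
      rcases le_total ‖x‖ 1 with h' | h'
      · exact Or.inl ⟨h, h'⟩
      · exact Or.inr ⟨h, h'⟩
    · rintro (h | h) <;> exact h.1
  have hcl : IsClosed {x : E | c ≤ ℓ x} := isClosed_le continuous_const ℓ.continuous
  rw [h1, image_union]
  refine IsClosed.union ?_ ?_
  · refine IsCompact.isClosed ?_
    refine ((isCompact_closedBall (0 : E) 1).inter_left hcl).image_of_continuousOn ?_
    intro x hx
    exact (D.continuousAt (lt_of_lt_of_le hc hx.1)).continuousWithinAt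
  · have h2 : D.Γ '' ({x | c ≤ ℓ x} ∩ {x | 1 ≤ ‖x‖}) = {x | c ≤ ℓ x} ∩ {x | 1 ≤ ‖x‖} := by
      have h3 : EqOn D.Γ id ({x | c ≤ ℓ x} ∩ {x | 1 ≤ ‖x‖}) := fun x hx =>
        D.Γ_far (hc.le.trans hx.1) hx.2
      rw [h3.image_eq, image_id]
    rw [h2]
    exact hcl.inter (isClosed_le continuous_const continuous_norm)

/-- The gates shrink to every point of the land. -/
theorem gates {e : E} (he : ℓ e = 1) {q : E} (hq : q ∉ D.Ω) {W : Set E} (hW : IsOpen W)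
    (hqW : q ∈ W) {r : ℝ} (hr : 0 < r) :
    ∃ c, 0 < c ∧ c < r ∧ ∀ x ∈ U ℓ, ‖x‖ = c → D.Γ x ∈ W := by
  obtain ⟨K, hK⟩ := D.exists_c_lt hr
  obtain ⟨k, hk, hgate⟩ := D.gate W hW q hqW K
  refine ⟨D.c (k + 1), D.c_pos _, hK _ (by omega), fun x hx hxc => ?_⟩
  rw [D.Γ_eq (k := k + 1) ⟨le_of_lt hx, hxc.ge⟩]
  refine hgate (fun V hV hqV => ?_) x hxc.le
  by_contra hne
  push Not at hne
  -- the preimage of `V` is an open subset of `A`
  have h1 : ∀ y, D.G k y ∈ V → y ∈ A ℓ (D.c k) := by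
    intro y hy
    have := hne _ hy
    rwa [Homeomorph.symm_apply_apply] at this
  set a := (D.G k).symm q with ha
  have haG : D.G k a = q := by rw [ha, Homeomorph.apply_symm_apply]
  have haA : a ∈ A ℓ (D.c k) := h1 a (by rw [haG]; exact hqV)
  have ha0 : ℓ a = 0 := by
    by_contra h0
    have : 0 < ℓ a := lt_of_le_of_ne haA.1 (Ne.symm h0)
    exact hq ⟨a, this, by rw [D.Γ_eq haA, haG]⟩
  have hcont : Tendsto (fun t : ℝ => D.G k (a - t • e)) (𝓝[>] 0) (𝓝 q) := by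
    have : Continuous fun t : ℝ => D.G k (a - t • e) := by fun_prop
    have h2 := this.tendsto 0
    simp only [zero_smul, sub_zero, haG] at h2
    exact h2.mono_left nhdsWithin_le_nhds
  have h3 : ∀ᶠ t : ℝ in 𝓝[>] 0, D.G k (a - t • e) ∈ V := hcont (hV.mem_nhds hqV)
  obtain ⟨t, ht, ht0⟩ := (h3.and self_mem_nhdsWithin).exists
  have h4 := (h1 _ ht).1
  rw [map_sub, map_smul, ha0, he] at h4
  have h5 : (0 : ℝ) < t := ht0
  simp at h4
  linarith

end Dig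

end Pool.Agent.Q100.CB
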