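import Mathlib

/-!
# Moving points by homeomorphisms supported in a connected open set
-/

set_option autoImplicit false

open Set Metric Filter Topology

namespace Pool.Agent.Q100.CB

variable {E : Type*} [NormedAddCommGroup E] [NormedSpace ℝ E]

/-- A point can be moved to any point of a ball around it, by a homeomorphism supported in the
ball. -/
theorem local_move [CompleteSpace E] (y z : E) (r : ℝ) (h : dist z y < r) :
    ∃ μ : E ≃ₜ E, μ y = z ∧ ∀ x, r ≤ dist x y → μ x = x := by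
  have hr : 0 < r := lt_of_le_of_lt dist_nonneg h
  let φ : E → ℝ := fun x => max 0 (1 - dist x y / r)
  have hφ : ∀ x x', |φ x - φ x'| ≤ dist x x' / r := by
    intro x x'
    have h1 : |φ x - φ x'| ≤ |(1 - dist x y / r) - (1 - dist x' y / r)| := by
      have := abs_max_sub_max_le_abs (1 - dist x y / r) (1 - dist x' y / r) 0
      simpa [φ, max_comm] using this
    refine h1.trans ?_
    have h2 : (1 - dist x y / r) - (1 - dist x' y / r) = -((dist x y - dist x' y) / r) := by ring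
    rw [h2, abs_neg, abs_div, abs_of_pos hr]
    gcongr
    exact abs_dist_sub_le x x' y
  let F : E → E := fun x => x + φ x • (z - y)
  obtain ⟨c, hcc⟩ : ∃ c : NNReal, (c : ℝ) = dist z y / r :=
    ⟨Real.toNNReal (dist z y / r), Real.coe_toNNReal _ (by positivity)⟩
  have hc : (c : ℝ) < 1 := by rw [hcc, div_lt_one hr]; exact h
  have hF : ApproximatesLinearOn F ((ContinuousLinearEquiv.refl ℝ E : E ≃L[ℝ] E) : E →L[ℝ] E)
      univ c := by
    intro x _ x' _
    have h1 : F x - F x' - (ContinuousLinearEquiv.refl ℝ E : E ≃L[ℝ] E) (x - x') =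
        (φ x - φ x') • (z - y) := by
      simp only [F, ContinuousLinearEquiv.refl_apply]
      module
    have h2 : ‖F x - F x' - (ContinuousLinearEquiv.refl ℝ E : E ≃L[ℝ] E) (x - x')‖ ≤
        c * ‖x - x'‖ := by
      rw [h1, norm_smul, Real.norm_eq_abs, hcc]
      calc |φ x - φ x'| * ‖z - y‖ ≤ dist x x' / r * ‖z - y‖ := by gcongr; exact hφ x x'
        _ = dist z y / r * ‖x - x'‖ := by rw [dist_eq_norm, dist_eq_norm]; ring
    exact h2
  have hN : Subsingleton E ∨ c < ‖((ContinuousLinearEquiv.refl ℝ E).symm : E →L[ℝ] E)‖₊⁻¹ := by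
    rcases subsingleton_or_nontrivial E with hE | hE
    · exact Or.inl hE
    · right
      have : ‖((ContinuousLinearEquiv.refl ℝ E).symm : E →L[ℝ] E)‖₊ = 1 := by
        have : ((ContinuousLinearEquiv.refl ℝ E).symm : E →L[ℝ] E) = ContinuousLinearMap.id ℝ E :=
          rfl
        rw [this]; simp
      rw [this, inv_one]
      exact_mod_cast hc
  refine ⟨ApproximatesLinearOn.toHomeomorph F hF hN, ?_, ?_⟩
  · show F y = z
    simp [F, φ]
  · intro x hx
    show F x = x
    have : φ x = 0 := by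
      simp only [φ]
      apply max_eq_left
      rw [sub_nonpos, le_div_iff₀ hr]; linarith
    simp [F, this]

/-- Homogeneity: in a connected open set any point can be moved to any other point by a
homeomorphism of the whole space which is the identity outside the set. -/
theorem move [CompleteSpace E] {O : Set E} (hO : IsOpen O) (hc : IsPreconnected O) {a b : E}
    (ha : a ∈ O) (hb : b ∈ O) : ∃ μ : E ≃ₜ E, μ a = b ∧ ∀ x, x ∉ O → μ x = x := by
  let S : Set E := {y | y ∈ O ∧ ∃ μ : E ≃ₜ E, μ a = y ∧ ∀ x, x ∉ O → μ x = x}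
  have key : ∀ y ∈ O, ∃ r > 0, ∀ z, dist z y < r → z ∈ O ∧
      ∃ μ : E ≃ₜ E, μ y = z ∧ ∀ x, x ∉ O → μ x = x := by
    intro y hy
    obtain ⟨r, hr, hr'⟩ := Metric.isOpen_iff.1 hO y hy
    refine ⟨r, hr, fun z hz => ⟨hr' hz, ?_⟩⟩
    obtain ⟨μ, h1, h2⟩ := local_move y z r hz
    refine ⟨μ, h1, fun x hx => h2 x ?_⟩
    by_contra hlt
    exact hx (hr' (not_le.1 hlt))
  have hS : IsOpen S := by
    rw [Metric.isOpen_iff]
    rintro y ⟨hy, μ, h1, h2⟩
    obtain ⟨r, hr, hk⟩ := key y hy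
    refine ⟨r, hr, fun z hz => ?_⟩
    obtain ⟨hzO, ν, h3, h4⟩ := hk z hz
    refine ⟨hzO, μ.trans ν, ?_, fun x hx => ?_⟩
    · show ν (μ a) = z
      rw [h1, h3]
    · show ν (μ x) = x
      rw [h2 x hx, h4 x hx]
  have hT : IsOpen (O \ S) := by
    rw [Metric.isOpen_iff]
    rintro y ⟨hy, hyS⟩
    obtain ⟨r, hr, hk⟩ := key y hy
    refine ⟨r, hr, fun z hz => ?_⟩
    obtain ⟨hzO, ν, h3, h4⟩ := hk z hz
    refine ⟨hzO, fun hzS => hyS ?_⟩
    obtain ⟨_, μ, h1, h2⟩ := hzS
    refine ⟨hy, μ.trans ν.symm, ?_, fun x hx => ?_⟩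
    · show ν.symm (μ a) = y
      rw [h1, ← h3, Homeomorph.symm_apply_apply]
    · show ν.symm (μ x) = x
      rw [h2 x hx, Homeomorph.symm_apply_eq, h4 x hx]
  have haS : a ∈ S := ⟨ha, Homeomorph.refl E, rfl, fun x _ => rfl⟩
  by_contra hne
  have hbT : b ∈ O \ S := ⟨hb, fun h => hne h.2⟩
  obtain ⟨z, -, hz1, hz2⟩ := hc S (O \ S) hS hT (fun z hz => by
    by_cases h : z ∈ S
    · exact Or.inl h
    · exact Or.inr ⟨hz, h⟩) ⟨a, ha, haS⟩ ⟨b, hb, hbT⟩
  exact hz2.2 hz1

end Pool.Agent.Q100.CB
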